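import Pool.Agent.T18.Stmts

/-!
# Note 3205: basic facts of the polarity (`Stmt_basic`)
-/

set_option autoImplicit false

namespace Pool.Agent.T18_68

open Pool.Agent.T18

section

variable {V W B : Type} [AddCommGroup V] [Module (ZMod 2) V] [AddCommGroup W] [Module (ZMod 2) W]
  [AddCommGroup B] [Module (ZMod 2) B] {β : V →ₗ[ZMod 2] W →ₗ[ZMod 2] B} {c : B} {l : V → W}

theorem link (h : Flat β c) {u v : V} (hu : InS β c u) (hv : InS β c v) :
    ∃ w, β u w = c ∧ β v w = c := by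
  obtain ⟨a, ha⟩ := hu
  obtain ⟨b, hb⟩ := hv
  obtain ⟨w, -, h1, h2⟩ := h.v 0 u v ⟨a, by simp, ha⟩ ⟨b, by simp, hb⟩
  exact ⟨w, h1, h2⟩

theorem adj_symm {u v : V} (h : Adj β c u v) : Adj β c v u :=
  ⟨h.2.1, h.1, by rw [add_comm]; exact h.2.2⟩

theorem adj_iff (h : Pol β c l) {u v : V} (hu : InS β c u) (hv : InS β c v) :
    Adj β c u v ↔ β u (l v) = c := by
  constructor
  · intro ha
    obtain ⟨w, h1, h2⟩ := link h.flat hu ha.2.2
    rw [map_add, LinearMap.add_apply, h1] at h2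
    have h3 : β v w = 0 := by simpa using h2
    rw [← h.uniq v w hv h3 ⟨u, h1⟩]
    exact h1
  · intro h1
    refine ⟨hu, hv, l v, ?_⟩
    rw [map_add, LinearMap.add_apply, h1, h.kill v hv, add_zero]

theorem adj_of (h : Pol β c l) {u v : V} (hv : InS β c v) (h1 : β u (l v) = c) : Adj β c u v :=
  (adj_iff h ⟨_, h1⟩ hv).2 h1

theorem of_adj (h : Pol β c l) {u v : V} (h1 : Adj β c u v) : β u (l v) = c :=
  (adj_iff h h1.1 h1.2.1).1 h1

/-- the lines through `v` are the `l z`, `z` adjacent to `v` -/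
theorem exists_adj (h : PolB β c l) {v : V} {w : W} (h1 : β v w = c) : ∃ z, Adj β c v z ∧ l z = w := by
  obtain ⟨z, hz, rfl⟩ := h.surj w ⟨v, h1⟩
  exact ⟨z, adj_of h.toPol hz h1, rfl⟩

theorem inf_bot (h : Pol β c l) {u v : V} (ha : Adj β c u v) : Wv β u ⊓ Wv β v = ⊥ := by
  rw [eq_bot_iff]
  rintro w ⟨h1, h2⟩
  rw [SetLike.mem_coe, mem_Wv] at h1 h2
  rw [Submodule.mem_bot]
  have h3 : w + l v = l v := by
    refine h.uniq v _ ha.2.1 ?_ ⟨u, ?_⟩
    · rw [map_add, h2, h.kill v ha.2.1, add_zero]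
    · rw [map_add, h1, of_adj h ha, zero_add]
  simpa using h3

theorem l_add (h : Pol β c l) {u v : V} (ha : Adj β c u v) : l (u + v) = l u + l v := by
  symm
  have h1 := of_adj h ha
  have h2 := of_adj h (adj_symm ha)
  refine h.uniq (u + v) _ ha.2.2 ?_ ⟨u, ?_⟩
  · rw [map_add, map_add β u v, LinearMap.add_apply, LinearMap.add_apply, h1, h2, h.kill u ha.1,
      h.kill v ha.2.1, zero_add, add_zero, ZModModule.add_self]
  · rw [map_add, h.kill u ha.1, h1, zero_add]

theorem common (h : PolB β c l) {u v : V} (hu : InS β c u) (hv : InS β c v) :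
    ∃ z, Adj β c u z ∧ Adj β c v z := by
  obtain ⟨w, h1, h2⟩ := link h.flat hu hv
  obtain ⟨z, hz, rfl⟩ := h.surj w ⟨u, h1⟩
  exact ⟨z, adj_of h.toPol hz h1, adj_of h.toPol hz h2⟩

theorem sixe (h : PolB β c l) {u v : V} (hu : InS β c u) (hv : InS β c v)
    (h0 : β u (l v) = 0) : u = v := by
  obtain ⟨z, hz1, hz2⟩ := common h hu hv
  have hzv : Adj β c z v := adj_symm hz2
  have h1 : l (z + v) = l z + l v := l_add h.toPol hzv
  have h2 : β u (l (z + v)) = c := by
    rw [h1, map_add, of_adj h.toPol hz1, h0, add_zero]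
  have h3 : Adj β c u (z + v) := adj_of h.toPol hzv.2.2 h2
  have h4 : Adj β c z (z + v) := by
    refine ⟨hzv.1, hzv.2.2, ?_⟩
    rw [← add_assoc, ZModModule.add_self, zero_add]
    exact hv
  have h5 : Adj β c (z + v) v := by
    refine ⟨hzv.2.2, hv, ?_⟩
    rw [add_assoc, ZModModule.add_self, add_zero]
    exact hzv.1
  have h6 : l u + l v ∈ Wv β z ⊓ Wv β (z + v) := by
    refine ⟨?_, ?_⟩
    · rw [SetLike.mem_coe, mem_Wv, map_add, of_adj h.toPol (adj_symm hz1), of_adj h.toPol hzv,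
        ZModModule.add_self]
    · rw [SetLike.mem_coe, mem_Wv, map_add, of_adj h.toPol (adj_symm h3), of_adj h.toPol h5,
        ZModModule.add_self]
  rw [inf_bot h.toPol h4, Submodule.mem_bot] at h6
  refine h.inj u v hu hv ?_
  have h7 : l u = l u + l v + l v := by rw [add_assoc, ZModModule.add_self, add_zero]
  rw [h7, h6, zero_add]

/-- a coset of a subspace has its cardinality -/
theorem card_coset {M : Type} [AddCommGroup M] [Module (ZMod 2) M] (H : Submodule (ZMod 2) M)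
    (P : M → Prop) (a : M) (h : ∀ w, P w ↔ w + a ∈ H) : Nat.card {w // P w} = Nat.card H := by
  refine Nat.card_congr ⟨fun w => ⟨w.1 + a, (h _).1 w.2⟩, fun w => ⟨w.1 + a, ?_⟩, ?_, ?_⟩
  · rw [h, add_assoc, ZModModule.add_self, add_zero]
    exact w.2
  · intro w
    apply Subtype.ext
    show w.1 + a + a = w.1
    rw [add_assoc, ZModModule.add_self, add_zero]
  · intro w
    apply Subtype.ext
    show w.1 + a + a = w.1
    rw [add_assoc, ZModModule.add_self, add_zero]

theorem eq_c_iff {v : V} {a : W} (ha : β v a = c) (w : W) : β v w = c ↔ w + a ∈ Wv β v := by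
  rw [mem_Wv, map_add, ha]
  constructor
  · intro h
    rw [h, ZModModule.add_self]
  · intro h
    have h1 : β v w + c + c = c := by rw [h, zero_add]
    rwa [add_assoc, ZModModule.add_self, add_zero] at h1

/-- the neighbours of `v` correspond to the lines through `v` -/
theorem card_nb (h : PolB β c l) (P : V → Prop) (Q : W → Prop) (h1 : ∀ z, P z → InS β c z)
    (h2 : ∀ z, InS β c z → (P z ↔ Q (l z))) (h3 : ∀ w, Q w → InL β c w) :
    Nat.card {z // P z} = Nat.card {w // Q w} := by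
  refine Nat.card_congr (Equiv.ofBijective (fun z => ⟨l z.1, (h2 z.1 (h1 _ z.2)).1 z.2⟩) ⟨?_, ?_⟩)
  · intro z z' e
    have e1 : l z.1 = l z'.1 := congrArg Subtype.val e
    exact Subtype.ext (h.inj _ _ (h1 _ z.2) (h1 _ z'.2) e1)
  · rintro ⟨w, hw⟩
    obtain ⟨z, hz, rfl⟩ := h.surj w (h3 w hw)
    exact ⟨⟨z, (h2 z hz).2 hw⟩, rfl⟩

theorem card_N (h : PolB β c l) {v : V} (hv : InS β c v) :
    Nat.card {z // Adj β c v z} = Nat.card (Wv β v) := by
  obtain ⟨a, ha⟩ := hv
  rw [← card_coset (Wv β v) (fun w => β v w = c) a (eq_c_iff ha)]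
  refine card_nb h _ _ (fun z hz => hz.2.1) (fun z hz => ⟨of_adj h.toPol, adj_of h.toPol hz⟩)
    (fun w hw => ⟨v, hw⟩)

theorem card_NN (h : PolB β c l) {u v : V} (hu : InS β c u) (hv : InS β c v) :
    Nat.card {z // Adj β c u z ∧ Adj β c v z} = Nat.card (Wv β u ⊓ Wv β v : Submodule _ _) := by
  obtain ⟨a, ha, hb⟩ := link h.flat hu hv
  rw [← card_coset (Wv β u ⊓ Wv β v) (fun w => β u w = c ∧ β v w = c) a (fun w => by
    rw [eq_c_iff ha, eq_c_iff hb]; exact Iff.rfl)]
  refine card_nb h _ _ (fun z hz => hz.1.2.1) (fun z hz => ?_) (fun w hw => ⟨u, hw.1⟩)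
  exact ⟨fun h1 => ⟨of_adj h.toPol h1.1, of_adj h.toPol h1.2⟩,
    fun h1 => ⟨adj_of h.toPol hz h1.1, adj_of h.toPol hz h1.2⟩⟩

end

theorem basic : Stmt_basic := by
  intro V W B _ _ _ _ _ _ _ _ β c l h
  refine ⟨fun u v hu hv => adj_iff h.toPol hu hv, fun v hv => card_N h hv,
    fun u v hu hv => card_NN h hu hv, fun u v ha => inf_bot h.toPol ha,
    fun u v ha => l_add h.toPol ha, fun u v hu hv h0 => sixe h hu hv h0,
    fun u v hu hv => common h hu hv, fun v z w hv hz => ⟨?_, fun hw => exists_adj h hw⟩⟩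
  exact (adj_iff h.toPol hv hz).symm

end Pool.Agent.T18_68
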