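import Pool.Agent.T18_68.Basic

/-!
# Note 3205: Step 11 (`Stmt_eleven`)
-/

set_option autoImplicit false

namespace Pool.Agent.T18_68

open Pool.Agent.T18 Finset

/-- the elements of an affine `𝔽₂`-space with at least four elements sum to zero -/
theorem sum_affine {M : Type} [AddCommGroup M] [Module (ZMod 2) M] (N : Finset M)
    (hN : ∀ a ∈ N, ∀ b ∈ N, ∀ d ∈ N, a + b + d ∈ N) (h4 : 4 ∣ N.card) : ∑ t ∈ N, t = 0 := by
  classical
  rw [← Module.forall_dual_apply_eq_zero_iff (ZMod 2)]
  intro f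
  rw [map_sum]
  by_cases h : ∃ a ∈ N, ∃ b ∈ N, f a ≠ f b
  · obtain ⟨a, ha, b, hb, hab⟩ := h
    have he : f (a + b) = 1 := by
      rw [map_add]
      have : ∀ x y : ZMod 2, x ≠ y → x + y = 1 := by decide
      exact this _ _ hab
    have hsum : ∑ t ∈ N, f t = ((N.filter (fun t => f t = 1)).card : ZMod 2) := by
      rw [Finset.card_filter, Nat.cast_sum]
      refine Finset.sum_congr rfl fun t _ => ?_
      have : ∀ x : ZMod 2, x = ((if x = 1 then 1 else 0 : ℕ) : ZMod 2) := by decide
      exact this _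
    have hcard : (N.filter (fun t => f t = 1)).card = (N.filter (fun t => ¬ f t = 1)).card := by
      refine Finset.card_bij (fun t _ => t + (a + b)) ?_ ?_ ?_
      · intro t ht
        rw [Finset.mem_filter] at ht ⊢
        refine ⟨?_, ?_⟩
        · rw [← add_assoc]
          exact hN t ht.1 a ha b hb
        · rw [map_add, ht.2, he]
          decide
      · intro t _ t' _ h
        exact add_right_cancel h
      · intro t ht
        rw [Finset.mem_filter] at ht
        refine ⟨t + (a + b), ?_, ?_⟩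
        · rw [Finset.mem_filter]
          refine ⟨?_, ?_⟩
          · rw [← add_assoc]
            exact hN t ht.1 a ha b hb
          · rw [map_add, he]
            have : ∀ x : ZMod 2, ¬ x = 1 → x + 1 = 1 := by decide
            exact this _ ht.2
        · rw [add_assoc, ZModModule.add_self, add_zero]
    have htot := Finset.card_filter_add_card_filter_not (s := N) (fun t => f t = 1)
    rw [← hcard] at htot
    obtain ⟨k, hk⟩ := h4
    have h2 : (N.filter (fun t => f t = 1)).card = 2 * k := by omega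
    rw [hsum, h2]
    push_cast
    have : (2 : ZMod 2) = 0 := by decide
    rw [this, zero_mul]
  · push Not at h
    rcases N.eq_empty_or_nonempty with rfl | ⟨a, ha⟩
    · simp
    · rw [Finset.sum_congr rfl (fun t ht => h t ht a ha), Finset.sum_const]
      obtain ⟨k, hk⟩ := h4
      rw [hk, nsmul_eq_mul]
      push_cast
      have : (4 : ZMod 2) = 0 := by decide
      rw [this, zero_mul, zero_mul]

theorem four_dvd {M : Type} [AddCommGroup M] [Module (ZMod 2) M] [Finite M]
    (H : Submodule (ZMod 2) M) (h : 4 ≤ Nat.card H) : 4 ∣ Nat.card H := by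
  have h1 : Nat.card H = 2 ^ Module.finrank (ZMod 2) H := by
    rw [Module.natCard_eq_pow_finrank (K := ZMod 2)]
    simp
  rw [h1] at h ⊢
  rcases Nat.lt_or_ge (Module.finrank (ZMod 2) H) 2 with h2 | h2
  · have : 2 ^ Module.finrank (ZMod 2) H ≤ 2 ^ 1 := Nat.pow_le_pow_right (by norm_num) (by omega)
    omega
  · exact pow_dvd_pow 2 h2

section

variable {V W B : Type} [AddCommGroup V] [Module (ZMod 2) V] [AddCommGroup W] [Module (ZMod 2) W]
  [AddCommGroup B] [Module (ZMod 2) B] {β : V →ₗ[ZMod 2] W →ₗ[ZMod 2] B} {c : B} {l : V → W}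

open Classical in
/-- `N(v)` -/
noncomputable def N [Fintype V] (β : V →ₗ[ZMod 2] W →ₗ[ZMod 2] B) (c : B) (v : V) : Finset V :=
  Finset.univ.filter (fun z => Adj β c v z)

open Classical in
/-- `S` -/
noncomputable def SS [Fintype V] (β : V →ₗ[ZMod 2] W →ₗ[ZMod 2] B) (c : B) : Finset V :=
  Finset.univ.filter (fun z => InS β c z)

theorem mem_N [Fintype V] {v z : V} : z ∈ N β c v ↔ Adj β c v z := by
  simp [N]

theorem mem_SS [Fintype V] {z : V} : z ∈ SS β c ↔ InS β c z := by
  simp [SS]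

theorem cardN [Fintype V] (h : PolB β c l) {v : V} (hv : InS β c v) :
    (N β c v).card = Nat.card (Wv β v) := by
  classical
  rw [← card_N h hv, N, Nat.card_eq_fintype_card, Fintype.card_subtype]

theorem cardNN [Fintype V] [DecidableEq V] (h : PolB β c l) {u v : V} (hu : InS β c u)
    (hv : InS β c v) :
    (N β c u ∩ N β c v).card = Nat.card (Wv β u ⊓ Wv β v : Submodule _ _) := by
  classical
  rw [← card_NN h hu hv, Nat.card_eq_fintype_card, Fintype.card_subtype]
  congr 1
  ext z
  simp [N]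

theorem ne_zero (hc : c ≠ 0) {v : V} (hv : InS β c v) : v ≠ 0 := by
  rintro rfl
  obtain ⟨w, hw⟩ := hv
  rw [map_zero, LinearMap.zero_apply] at hw
  exact hc hw.symm

theorem card_one [Fintype V] [DecidableEq V] (h : PolB β c l)
    (h10 : ∀ s, Heavy β s → InS β c s → ∀ u, InS β c u → u ≠ s → Wv β u ⊓ Wv β s = ⊥)
    {u y : V} (hy : Heavy β y) (hyS : InS β c y) (hu : InS β c u) (huy : u ≠ y) :
    (N β c u ∩ N β c y).card = 1 := by
  rw [cardNN h hu hyS, h10 y hy hyS u hu huy]
  simp

/-- first part of Step 11: a point `s ≠ y` not adjacent to `y` is as heavy as `y` -/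
theorem heavy_of_not_adj [Finite V] (h : PolB β c l)
    (h10 : ∀ s, Heavy β s → InS β c s → ∀ u, InS β c u → u ≠ s → Wv β u ⊓ Wv β s = ⊥)
    {y s : V} (hy : Heavy β y) (hyS : InS β c y) (hs : InS β c s)
    (hna : ¬ Adj β c y s) : Heavy β s ∧ Nat.card (Wv β s) = Nat.card (Wv β y) := by
  classical
  haveI := Fintype.ofFinite V
  have hle : Nat.card (Wv β s) ≤ Nat.card (Wv β y) := hy.2 s (ne_zero h.c0 hs)
  have hcomm : ∑ u ∈ N β c s, (N β c u ∩ N β c y).card =
      ∑ z ∈ N β c y, (N β c z ∩ N β c s).card := by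
    have e1 : ∀ a b : V, (N β c a ∩ N β c b).card = ∑ z ∈ N β c b, if Adj β c a z then 1 else 0 := by
      intro a b
      rw [← Finset.card_filter]
      congr 1
      ext z
      simp only [mem_inter, mem_N, mem_filter]
      exact And.comm
    rw [Finset.sum_congr rfl (fun u _ => e1 u y), Finset.sum_congr rfl (fun z _ => e1 z s),
      Finset.sum_comm]
    refine Finset.sum_congr rfl fun z _ => Finset.sum_congr rfl fun u _ => ?_
    by_cases h1 : Adj β c u z
    · rw [if_pos h1, if_pos (adj_symm h1)]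
    · rw [if_neg h1, if_neg (fun h2 => h1 (adj_symm h2))]
  have h1 : ∑ u ∈ N β c s, (N β c u ∩ N β c y).card = (N β c s).card := by
    rw [Finset.card_eq_sum_ones]
    refine Finset.sum_congr rfl fun u hu => ?_
    rw [mem_N] at hu
    refine card_one h h10 hy hyS hu.2.1 ?_
    rintro rfl
    exact hna (adj_symm hu)
  have h2 : (N β c y).card ≤ ∑ z ∈ N β c y, (N β c z ∩ N β c s).card := by
    rw [Finset.card_eq_sum_ones]
    refine Finset.sum_le_sum fun z hz => ?_
    rw [mem_N] at hz
    obtain ⟨t, ht1, ht2⟩ := common h hz.2.1 hs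
    rw [Nat.one_le_iff_ne_zero, ← Nat.pos_iff_ne_zero, Finset.card_pos]
    exact ⟨t, by rw [mem_inter, mem_N, mem_N]; exact ⟨ht1, ht2⟩⟩
  rw [← hcomm, h1, cardN h hyS, cardN h hs] at h2
  have h3 : Nat.card (Wv β s) = Nat.card (Wv β y) := le_antisymm hle h2
  refine ⟨⟨ne_zero h.c0 hs, fun v hv => ?_⟩, h3⟩
  rw [h3]
  exact hy.2 v hv

theorem sum_N [Fintype V] [Finite W] (h : PolB β c l) {z : V} (hz : InS β c z)
    (h4 : 4 ≤ Nat.card (Wv β z)) : ∑ t ∈ N β c z, t = 0 := by
  have e : ∀ t, t ∈ N β c z ↔ β t (l z) = c := by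
    intro t
    rw [mem_N]
    exact ⟨fun h1 => of_adj h.toPol (adj_symm h1), fun h1 => adj_symm (adj_of h.toPol hz h1)⟩
  refine sum_affine _ ?_ ?_
  · intro a ha b hb d hd
    rw [e] at ha hb hd ⊢
    rw [map_add, map_add, LinearMap.add_apply, LinearMap.add_apply, ha, hb, hd,
      ZModModule.add_self, zero_add]
  · rw [cardN h hz]
    exact four_dvd _ h4

theorem sum_key [Fintype V] [Finite W] (h : PolB β c l)
    (h10 : ∀ s, Heavy β s → InS β c s → ∀ u, InS β c u → u ≠ s → Wv β u ⊓ Wv β s = ⊥)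
    {y s z0 : V} (hy : Heavy β y) (hyS : InS β c y) (h4 : 4 ≤ Nat.card (Wv β y))
    (hs : Heavy β s) (hsS : InS β c s) (hna : ¬ Adj β c y s)
    (hz0 : Adj β c y z0) (huniq : ∀ z, Adj β c y z → Adj β c s z → z = z0) :
    ∑ t ∈ N β c z0, t = ∑ t ∈ SS β c, t + y := by
  classical
  have hsy : Nat.card (Wv β s) = Nat.card (Wv β y) :=
    le_antisymm (hy.2 s hs.1) (hs.2 y hy.1)
  -- the left hand side
  have e1 : ∑ z ∈ N β c y, ∑ t ∈ N β c z, t = ∑ t ∈ N β c z0, t := by
    refine Finset.sum_eq_single z0 ?_ ?_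
    · intro z hz hne
      rw [mem_N] at hz
      have hna2 : ¬ Adj β c s z := fun h1 => hne (huniq z hz h1)
      have h2 := heavy_of_not_adj h h10 hs hsS hz.2.1 hna2
      refine sum_N h hz.2.1 ?_
      rw [h2.2, hsy]
      exact h4
    · intro h1
      exact absurd (mem_N.2 hz0) h1
  rw [← e1]
  have e2 : ∀ z, ∑ t ∈ N β c z, t = ∑ t ∈ SS β c, if Adj β c z t then t else 0 := by
    intro z
    rw [← Finset.sum_filter]
    refine Finset.sum_congr ?_ fun _ _ => rfl
    ext t
    rw [mem_N, mem_filter, mem_SS]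
    exact ⟨fun h1 => ⟨h1.2.1, h1⟩, fun h1 => h1.2⟩
  rw [Finset.sum_congr rfl (fun z _ => e2 z), Finset.sum_comm]
  have e3 : ∀ t ∈ SS β c, (∑ z ∈ N β c y, if Adj β c z t then t else 0) = if t = y then 0 else t := by
    intro t ht
    rw [mem_SS] at ht
    rw [← Finset.sum_filter, Finset.sum_const]
    have e4 : ((N β c y).filter (fun z => Adj β c z t)) = N β c t ∩ N β c y := by
      ext z
      rw [mem_filter, mem_inter, mem_N, mem_N]
      exact ⟨fun h1 => ⟨adj_symm h1.2, h1.1⟩, fun h1 => ⟨h1.2, adj_symm h1.1⟩⟩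
    rw [e4]
    by_cases hty : t = y
    · subst hty
      rw [if_pos rfl, inter_self, cardN h ht]
      obtain ⟨k, hk⟩ := four_dvd _ h4
      rw [hk, show 4 * k = (2 * k) * 2 by ring, mul_smul, two_nsmul, ZModModule.add_self, smul_zero]
    · rw [if_neg hty, card_one h h10 hy hyS ht hty, one_smul]
  rw [Finset.sum_congr rfl e3]
  have hyM : y ∈ SS β c := mem_SS.2 hyS
  rw [← Finset.add_sum_erase _ _ hyM, ← Finset.add_sum_erase _ (fun t => t) hyM, if_pos rfl, zero_add]
  rw [Finset.sum_congr rfl (fun t ht => if_neg (Finset.ne_of_mem_erase ht))]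
  rw [add_comm y, add_assoc, ZModModule.add_self, add_zero]

end

theorem eleven : Stmt_eleven := by
  intro V W B _ _ _ _ _ _ _ _ β c l y h hy hyS h4 h10 s hs
  classical
  haveI := Fintype.ofFinite V
  by_contra hcon
  push Not at hcon
  obtain ⟨hsy, hna⟩ := hcon
  have h1 := heavy_of_not_adj h h10 hy hyS hs hna
  have hc1 : (N β c s ∩ N β c y).card = 1 := card_one h h10 hy hyS hs hsy
  obtain ⟨z0, hz0⟩ := Finset.card_eq_one.1 hc1
  have hmem : z0 ∈ N β c s ∩ N β c y := by
    rw [hz0]
    exact Finset.mem_singleton_self _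
  rw [mem_inter, mem_N, mem_N] at hmem
  have huniq : ∀ z, Adj β c y z → Adj β c s z → z = z0 := by
    intro z h2 h3
    have : z ∈ N β c s ∩ N β c y := by
      rw [mem_inter, mem_N, mem_N]
      exact ⟨h3, h2⟩
    rw [hz0, Finset.mem_singleton] at this
    exact this
  have e1 := sum_key h h10 hy hyS h4 h1.1 hs hna hmem.2 huniq
  have e2 := sum_key h h10 h1.1 hs (by rw [h1.2]; exact h4) hy hyS (fun h2 => hna (adj_symm h2))
    hmem.1 (fun z h2 h3 => huniq z h3 h2)
  rw [e1] at e2
  exact hsy (add_left_cancel e2).symm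

end Pool.Agent.T18_68
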