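import Pool.Agent.T18.Stmts

/-!
# Note 3205: `FLAT` passes to `V_K × W/K` (`Stmt_res`)
-/

set_option autoImplicit false

namespace Pool.Agent.T18_68

open Pool.Agent.T18

theorem card_comap_mkQ {W : Type} [AddCommGroup W] [Module (ZMod 2) W] (K : Submodule (ZMod 2) W)
    (H : Submodule (ZMod 2) (W ⧸ K)) :
    Nat.card H * Nat.card K = Nat.card (H.comap K.mkQ) := by
  obtain ⟨f, hf⟩ : ∃ f : H.comap K.mkQ →ₗ[ZMod 2] H, ∀ x, (f x : W ⧸ K) = K.mkQ x.1 :=
    ⟨K.mkQ.restrict (fun x hx => hx), fun x => rfl⟩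
  have hsurj : Function.Surjective f := by
    rintro ⟨y, hy⟩
    obtain ⟨x, rfl⟩ := K.mkQ_surjective y
    exact ⟨⟨x, hy⟩, Subtype.ext (hf _)⟩
  rw [Submodule.card_eq_card_quotient_mul_card (LinearMap.ker f)]
  have e1 : Nat.card ((H.comap K.mkQ) ⧸ LinearMap.ker f) = Nat.card H :=
    Nat.card_congr (f.quotKerEquivOfSurjective hsurj).toEquiv
  have e2 : Nat.card (LinearMap.ker f) = Nat.card K := by
    refine Nat.card_congr ⟨fun x => ⟨x.1.1, ?_⟩, fun k => ⟨⟨k.1, ?_⟩, ?_⟩, ?_, ?_⟩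
    · have h1 : f x.1 = 0 := x.2
      have h2 := hf x.1
      rw [h1] at h2
      exact (Submodule.Quotient.mk_eq_zero K).1 h2.symm
    · show K.mkQ k.1 ∈ H
      have : K.mkQ k.1 = 0 := (Submodule.Quotient.mk_eq_zero K).2 k.2
      rw [this]
      exact H.zero_mem
    · rw [LinearMap.mem_ker]
      apply Subtype.ext
      rw [hf]
      exact (Submodule.Quotient.mk_eq_zero K).2 k.2
    · intro x
      rfl
    · intro k
      rfl
  rw [e1, e2, mul_comm]

section

variable {V W B : Type} [AddCommGroup V] [Module (ZMod 2) V] [AddCommGroup W] [Module (ZMod 2) W]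
  [AddCommGroup B] [Module (ZMod 2) B] {β : V →ₗ[ZMod 2] W →ₗ[ZMod 2] B} {c : B}

theorem comap_Wv (K : Submodule (ZMod 2) W) (v : VK β K) :
    (Wv (res β K) v).comap K.mkQ = Wv β v := by
  ext w
  rw [Submodule.mem_comap, mem_Wv, mem_Wv, res_mk]

theorem card_res (K : Submodule (ZMod 2) W) (v : VK β K) :
    Nat.card (Wv (res β K) v) * Nat.card K = Nat.card (Wv β v) := by
  rw [card_comap_mkQ, comap_Wv]

theorem inS_res (K : Submodule (ZMod 2) W) (v : VK β K) : InS β c v ↔ InS (res β K) c v := by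
  constructor
  · rintro ⟨w, hw⟩
    exact ⟨K.mkQ w, by rw [res_mk]; exact hw⟩
  · rintro ⟨w, hw⟩
    obtain ⟨w, rfl⟩ := K.mkQ_surjective w
    exact ⟨w, by rw [← hw, res_mk]⟩

theorem flat_res (h : Flat β c) (K : Submodule (ZMod 2) W) : Flat (res β K) c := by
  constructor
  · intro H w w1 hw hw1
    obtain ⟨w, rfl⟩ := K.mkQ_surjective w
    obtain ⟨w1, rfl⟩ := K.mkQ_surjective w1
    have key : ∀ v : VK β K, v ∈ VK (res β K) H ↔ (v : V) ∈ VK β (H.comap K.mkQ) := by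
      intro v
      rw [mem_VK, mem_VK]
      constructor
      · intro h1 k hk
        rw [← res_mk]
        exact h1 _ hk
      · intro h1 k hk
        obtain ⟨k, rfl⟩ := K.mkQ_surjective k
        rw [res_mk]
        exact h1 k hk
    obtain ⟨v, hv, hvw⟩ := hw
    obtain ⟨v', hv', hvw'⟩ := hw1
    rw [res_mk] at hvw hvw'
    obtain ⟨t, ht, h1, h2⟩ := h.w (H.comap K.mkQ) w w1 ⟨v, (key v).1 hv, hvw⟩
      ⟨v', (key v').1 hv', hvw'⟩
    have htK : t ∈ VK β K := by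
      intro k hk
      refine ht k ?_
      show K.mkQ k ∈ H
      have : K.mkQ k = 0 := (Submodule.Quotient.mk_eq_zero K).2 hk
      rw [this]
      exact H.zero_mem
    refine ⟨⟨t, htK⟩, (key ⟨t, htK⟩).2 ht, ?_, ?_⟩
    · rw [res_mk]
      exact h1
    · rw [res_mk]
      exact h2
  · rintro u v v1 ⟨w, hw1, hw2⟩ ⟨w', hw1', hw2'⟩
    obtain ⟨w, rfl⟩ := K.mkQ_surjective w
    obtain ⟨w', rfl⟩ := K.mkQ_surjective w'
    rw [res_mk] at hw1 hw2 hw1' hw2'
    obtain ⟨t, h1, h2, h3⟩ := h.v u v v1 ⟨w, hw1, hw2⟩ ⟨w', hw1', hw2'⟩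
    exact ⟨K.mkQ t, by rw [res_mk]; exact h1, by rw [res_mk]; exact h2, by rw [res_mk]; exact h3⟩

theorem heavy_res [Finite W] (K : Submodule (ZMod 2) W) (v : VK β K) (h : Heavy β v) :
    Heavy (res β K) v := by
  refine ⟨fun h0 => h.1 (by rw [h0]; rfl), fun u hu => ?_⟩
  have h1 : Nat.card (Wv β (u : V)) ≤ Nat.card (Wv β (v : V)) :=
    h.2 u (fun h0 => hu (Subtype.ext h0))
  rw [← card_res K u, ← card_res K v] at h1
  exact Nat.le_of_mul_le_mul_right h1 Nat.card_pos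

end

theorem res_proof : Stmt_res := by
  intro V W B _ _ _ _ _ _ _ _ β c K
  refine ⟨fun h => flat_res h K, card_res K, fun u v => ?_, heavy_res K, inS_res K⟩
  rw [card_comap_mkQ, Submodule.comap_inf, comap_Wv, comap_Wv]

end Pool.Agent.T18_68
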